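import Mathlib

/-!
# Every non-abelian group of odd order `n` has a chain of rank `n - 1`

Let `G` be a finite non-abelian group of odd order `n`.  We construct a permutation `θ` of `G`
such that `x ↦ x * θ x` takes exactly `n - 1` distinct values.  In other words the Cayley table
of `G` has a chain of rank `n - 1`, i.e. `G` is `(n - 1)`-admissible.

Sketch.  First (`comm_of_forall`, Burnside transfer) a finite non-abelian group has an abelian
subgroup `A` and an element `g` normalizing but not centralizing `A`.  Let `a ∈ A` not commute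
with `g`, and let `q` be the order of `g` modulo `A`, so `q ≥ 3`.
Let `c x = a⁻¹ g ^ q` for `x ∈ A`, `c x = g⁻² a g²` for `x ∈ g A` and `c x = 1` otherwise.
Then `B : x ↦ x * c x` and `F : x ↦ x * x * c x` are permutations of `G`.
Let `π` be the `q`-cycle `a ↦ g ↦ g² ↦ ⋯ ↦ g^(q-1) ↦ a` and `θ = B ∘ π ∘ π`.
Then `x * θ x = F (π x)` for all `x ≠ g^(q-1)`, whereas at `x = g^(q-1)` the two sides differ
because `a` does not commute with `g^(q-2)`.  Hence exactly one value is missed.
-/

namespace Pool.Agent.Results.MP_053bca_co.NonabelianOdd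

open Subgroup

universe u

section construction

variable {G : Type*} [Group G]

/-- Products of elements of the cosets `g ^ i A`, `g ^ j A` lie in `g ^ (i + j) A`. -/
lemma coset_mul {A : Subgroup G} {g : G} (hg : g ∈ normalizer (A : Set G)) {i j : ℕ} {u v : G}
    (hu : (g ^ i)⁻¹ * u ∈ A) (hv : (g ^ j)⁻¹ * v ∈ A) : (g ^ (i + j))⁻¹ * (u * v) ∈ A := by
  have h1 : (g ^ j)⁻¹ ∈ normalizer (A : Set G) := inv_mem (pow_mem hg j)
  have h2 := (mem_normalizer_iff.1 h1 _).1 hu
  have h3 := A.mul_mem h2 hv
  have : (g ^ (i + j))⁻¹ * (u * v) =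
      (g ^ j)⁻¹ * ((g ^ i)⁻¹ * u) * ((g ^ j)⁻¹)⁻¹ * ((g ^ j)⁻¹ * v) := by
    rw [pow_add]; group
  rw [this]
  exact h3

lemma coset_pow {A : Subgroup G} {g : G} (hg : g ∈ normalizer (A : Set G)) {i : ℕ} {u : G}
    (hu : (g ^ i)⁻¹ * u ∈ A) (m : ℕ) : (g ^ (i * m))⁻¹ * u ^ m ∈ A := by
  induction m with
  | zero => simp
  | succ m ih =>
    rw [Nat.mul_succ, pow_succ]
    exact coset_mul hg ih hu

/-- In a group of odd order `N`, a square root of an element of `g ^ (2 i) A` lies in
`g ^ i A`. -/
lemma coset_sqrt {A : Subgroup G} {g : G} (hg : g ∈ normalizer (A : Set G))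
    (hodd : Odd (Nat.card G)) {i : ℕ} {u : G}
    (hu : (g ^ (i + i))⁻¹ * (u * u) ∈ A) : (g ^ i)⁻¹ * u ∈ A := by
  obtain ⟨k, hk⟩ := hodd
  have h := coset_pow hg hu (k + 1)
  have h1 : (u * u) ^ (k + 1) = u := by
    rw [← pow_two, ← pow_mul, show 2 * (k + 1) = Nat.card G + 1 by omega, pow_succ,
      pow_card_eq_one', one_mul]
  have h2 : g ^ ((i + i) * (k + 1)) = g ^ i := by
    rw [show (i + i) * (k + 1) = Nat.card G * i + i by rw [hk]; ring, pow_add, pow_mul,
      pow_card_eq_one', one_pow, one_mul]
  rwa [h1, h2] at h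

lemma sq_inj (hodd : Odd (Nat.card G)) {x y : G} (h : x * x = y * y) : x = y := by
  obtain ⟨k, hk⟩ := hodd
  have h1 : ∀ u : G, (u * u) ^ (k + 1) = u := fun u => by
    rw [← pow_two, ← pow_mul, show 2 * (k + 1) = Nat.card G + 1 by omega, pow_succ,
      pow_card_eq_one', one_mul]
  rw [← h1 x, h, h1 y]

/-- If `f` agrees with a bijection `Φ` except at exactly one point, then it misses exactly one
value. -/
lemma range_of_almost {G : Type*} [Finite G] (Φ f : G → G) (hΦ : Function.Bijective Φ) (x₀ : G)
    (h1 : ∀ x, x ≠ x₀ → f x = Φ x) (h2 : f x₀ ≠ Φ x₀) :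
    (Set.range f).ncard = Nat.card G - 1 := by
  have : Set.range f = {Φ x₀}ᶜ := by
    ext s
    simp only [Set.mem_range, Set.mem_compl_iff, Set.mem_singleton_iff]
    constructor
    · rintro ⟨x, rfl⟩ h
      by_cases hx : x = x₀
      · subst hx; exact h2 h
      · rw [h1 x hx] at h
        exact hx (hΦ.1 h)
    · intro hs
      obtain ⟨x, rfl⟩ := hΦ.2 s
      have hx : x ≠ x₀ := fun h => hs (by rw [h])
      exact ⟨x, h1 x hx⟩
  rw [this, Set.ncard_compl, Set.ncard_singleton]

/-- The main construction. -/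
theorem main_construction [Finite G] (hodd : Odd (Nat.card G)) (A : Subgroup G)
    (hA : ∀ a ∈ A, ∀ b ∈ A, a * b = b * a) (g : G) (hg : g ∈ normalizer (A : Set G))
    (hgA : g ∉ A) (a : G) (haA : a ∈ A) (hag : a * g ≠ g * a) :
    ∃ θ : Equiv.Perm G, (Set.range fun x : G => x * θ x).ncard = Nat.card G - 1 := by
  classical
  -- the order of `g` modulo `A`
  have hex : ∃ n, 0 < n ∧ g ^ n ∈ A :=
    ⟨Nat.card G, Nat.card_pos, by rw [pow_card_eq_one']; exact A.one_mem⟩
  obtain ⟨hq0, hqA⟩ := Nat.find_spec hex
  have hqmin : ∀ n, 0 < n → n < Nat.find hex → g ^ n ∉ A := fun n hn hlt hmem =>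
    Nat.find_min hex hlt ⟨hn, hmem⟩
  generalize Nat.find hex = q at hq0 hqA hqmin
  have hq1 : q ≠ 1 := by
    rintro rfl
    rw [pow_one] at hqA
    exact hgA hqA
  have hq2 : q ≠ 2 := by
    rintro rfl
    apply hgA
    have := coset_sqrt (i := 0) (u := g) hg hodd (by simpa [pow_two] using hqA)
    simpa using this
  obtain ⟨m, rfl⟩ : ∃ m, q = m + 3 := ⟨q - 3, by omega⟩
  -- the correcting factors
  set c : G → G := fun x => if x ∈ A then a⁻¹ * g ^ (m + 3) else
    if g⁻¹ * x ∈ A then (g ^ 2)⁻¹ * a * g ^ 2 else 1 with hc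
  have hcA : ∀ x, c x ∈ A := by
    intro x
    simp only [hc]
    split_ifs
    · exact A.mul_mem (A.inv_mem haA) hqA
    · have h1 : (g ^ 2)⁻¹ ∈ normalizer (A : Set G) := inv_mem (pow_mem hg 2)
      have h2 := (mem_normalizer_iff.1 h1 _).1 haA
      simpa using h2
    · exact A.one_mem
  have hc_eq : ∀ x y, (x ∈ A ↔ y ∈ A) → (g⁻¹ * x ∈ A ↔ g⁻¹ * y ∈ A) → c x = c y := by
    intro x y h1 h2
    simp only [hc, h1, h2]
  -- the base permutation
  have hBinj : Function.Injective fun x : G => x * c x := by
    intro x y hxy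
    simp only at hxy
    have h1 : ∀ z : G, z ∈ A ↔ z * c z ∈ A := fun z => (A.mul_mem_cancel_right (hcA z)).symm
    have h2 : ∀ z : G, g⁻¹ * z ∈ A ↔ g⁻¹ * (z * c z) ∈ A := fun z => by
      rw [← mul_assoc]; exact (A.mul_mem_cancel_right (hcA z)).symm
    have h3 := hc_eq x y (by rw [h1 x, h1 y, hxy]) (by rw [h2 x, h2 y, hxy])
    rw [h3] at hxy
    exact mul_right_cancel hxy
  have hFinj : Function.Injective fun x : G => x * (x * c x) := by
    intro x y hxy
    simp only at hxy
    have h1 : ∀ z : G, z ∈ A ↔ z * (z * c z) ∈ A := fun z => by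
      rw [← mul_assoc, A.mul_mem_cancel_right (hcA z)]
      refine ⟨fun h => A.mul_mem h h, fun h => ?_⟩
      have := coset_sqrt (i := 0) (u := z) hg hodd (by simpa using h)
      simpa using this
    have h2 : ∀ z : G, g⁻¹ * z ∈ A ↔ (g ^ 2)⁻¹ * (z * (z * c z)) ∈ A := fun z => by
      rw [show (g ^ 2)⁻¹ * (z * (z * c z)) = (g ^ 2)⁻¹ * (z * z) * c z by group,
        A.mul_mem_cancel_right (hcA z)]
      refine ⟨fun h => ?_, fun h => ?_⟩
      · have h' : (g ^ 1)⁻¹ * z ∈ A := by simpa using h
        exact coset_mul hg h' h'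
      · have := coset_sqrt (i := 1) (u := z) hg hodd (by simpa using h)
        simpa using this
    have h3 := hc_eq x y (by rw [h1 x, h1 y, hxy]) (by rw [h2 x, h2 y, hxy])
    rw [h3, ← mul_assoc, ← mul_assoc] at hxy
    exact sq_inj hodd (mul_right_cancel hxy)
  let B : Equiv.Perm G := Equiv.ofBijective _ (Finite.injective_iff_bijective.1 hBinj)
  let F : Equiv.Perm G := Equiv.ofBijective _ (Finite.injective_iff_bijective.1 hFinj)
  have hB : ∀ x, B x = x * c x := fun x => rfl
  have hF : ∀ x, F x = x * (x * c x) := fun x => rfl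
  -- the cycle
  let E : ℕ → G := fun k => if k = 0 then a else g ^ k
  have hE0 : E 0 = a := by simp [E]
  have hEpos : ∀ k, 0 < k → E k = g ^ k := fun k hk => by simp [E, hk.ne']
  have hpowinj : ∀ k l, k < l → l < m + 3 → g ^ k ≠ g ^ l := by
    intro k l hkl hl h
    apply hqmin (l - k) (by omega) (by omega)
    have : g ^ (l - k) = 1 := by
      have h' : g ^ l = g ^ k * g ^ (l - k) := by rw [← pow_add]; congr 1; omega
      rw [h'] at h
      exact (mul_eq_left.1 h.symm)
    rw [this]; exact A.one_mem
  have hanot : ∀ k, 0 < k → k < m + 3 → a ≠ g ^ k := by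
    rintro k hk hk' rfl
    exact hqmin k hk hk' haA
  have hEinj : ∀ k l, k < m + 3 → l < m + 3 → E k = E l → k = l := by
    intro k l hk hl h
    rcases Nat.eq_zero_or_pos k with rfl | hk0 <;> rcases Nat.eq_zero_or_pos l with rfl | hl0
    · rfl
    · rw [hE0, hEpos l hl0] at h
      exact absurd h (hanot l hl0 hl)
    · rw [hE0, hEpos k hk0] at h
      exact absurd h.symm (hanot k hk0 hk)
    · rw [hEpos k hk0, hEpos l hl0] at h
      rcases lt_trichotomy k l with h' | h' | h'
      · exact absurd h (hpowinj k l h' hl)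
      · exact h'
      · exact absurd h.symm (hpowinj l k h' hk)
  let e : Fin (m + 3) ↪ G := ⟨fun k => E k, fun k l h => Fin.ext (hEinj k l k.2 l.2 h)⟩
  let π : Equiv.Perm G := (finRotate (m + 3)).viaFintypeEmbedding e
  have hπ1 : ∀ k, k < m + 2 → π (E k) = E (k + 1) := by
    intro k hk
    have := Equiv.Perm.viaFintypeEmbedding_apply_image (finRotate (m + 3)) e ⟨k, by omega⟩
    rw [finRotate_of_lt hk] at this
    exact this
  have hπ2 : π (E (m + 2)) = E 0 := by
    have := Equiv.Perm.viaFintypeEmbedding_apply_image (finRotate (m + 3)) e (Fin.last (m + 2))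
    rw [finRotate_last] at this
    exact this
  have hπ3 : ∀ x, (∀ k < m + 3, x ≠ E k) → π x = x := by
    intro x hx
    apply Equiv.Perm.viaFintypeEmbedding_apply_notMem_range
    rintro ⟨k, rfl⟩
    exact hx k k.2 rfl
  have hc1 : ∀ k, 2 ≤ k → k < m + 3 → c (g ^ k) = 1 := by
    intro k hk hk'
    simp only [hc]
    rw [if_neg (hqmin k (by omega) hk'), if_neg]
    have : g⁻¹ * g ^ k = g ^ (k - 1) := by
      obtain ⟨j, rfl⟩ : ∃ j, k = j + 1 := ⟨k - 1, by omega⟩
      rw [pow_succ']; simp
    rw [this]
    exact hqmin (k - 1) (by omega) (by omega)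
  have hcg : c g = (g ^ 2)⁻¹ * a * g ^ 2 := by
    simp only [hc]
    rw [if_neg hgA, if_pos]
    simp [A.one_mem]
  have hca : c a = a⁻¹ * g ^ (m + 3) := by
    simp only [hc]
    rw [if_pos haA]
  refine ⟨(π.trans π).trans B, ?_⟩
  apply range_of_almost (π.trans F) _ (π.trans F).bijective (E (m + 2))
  · intro x hx
    simp only [Equiv.trans_apply, hB, hF]
    by_cases hxE : ∃ k < m + 3, x = E k
    · obtain ⟨k, hk, rfl⟩ := hxE
      have hk2 : k ≠ m + 2 := fun h => hx (by rw [h])
      rw [hπ1 k (by omega)]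
      by_cases hk1 : k = m + 1
      · subst hk1
        rw [hπ2, hE0, hca, hEpos _ (by omega), hEpos _ (by omega), hc1 _ (by omega) (by omega)]
        simp only [mul_one, mul_inv_cancel_left, ← pow_add]
        congr 1; omega
      · rw [hπ1 (k + 1) (by omega), hEpos (k + 1 + 1) (by omega), hc1 _ (by omega) (by omega)]
        rcases Nat.eq_zero_or_pos k with rfl | hk0
        · rw [hE0, hEpos (0 + 1) (by omega)]
          simp only [zero_add, pow_one, hcg]
          group
        · rw [hEpos k hk0, hEpos (k + 1) (by omega), hc1 _ (by omega) (by omega)]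
          simp only [mul_one, ← pow_add]
          congr 1; omega
    · push Not at hxE
      rw [hπ3 x hxE, hπ3 x hxE]
  · simp only [Equiv.trans_apply, hB, hF]
    rw [hπ2, hπ1 0 (by omega), hE0, hEpos (m + 2) (by omega), hEpos (0 + 1) (by omega)]
    simp only [zero_add, pow_one, hcg, hca]
    intro h
    -- `g ^ (m + 1)` commutes with `a`
    have h1 : g ^ (m + 1) * a = a * g ^ (m + 1) := by
      have h2 : g ^ (m + 2) * (g * ((g ^ 2)⁻¹ * a * g ^ 2)) = g ^ (m + 1) * a * g ^ 2 := by
        rw [show m + 2 = (m + 1) + 1 from rfl, pow_succ g (m + 1), pow_two]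
        group
      have h3 : a * (a * (a⁻¹ * g ^ (m + 3))) = a * g ^ (m + 1) * g ^ 2 := by
        rw [show m + 3 = (m + 1) + 2 from rfl, pow_add g (m + 1) 2]
        group
      rw [h2, h3] at h
      exact mul_right_cancel h
    have h4 : g ^ (m + 3) * a = a * g ^ (m + 3) := hA _ hqA _ haA
    have h5 : Commute a (g ^ (m + 1)) := h1.symm
    have h6 : Commute a (g ^ (m + 3)) := h4.symm
    have h7 : Commute a (g ^ 2) := by
      have : g ^ 2 = (g ^ (m + 1))⁻¹ * g ^ (m + 3) := by
        rw [show m + 3 = (m + 1) + 2 from rfl, pow_add g (m + 1) 2]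
        group
      rw [this]
      exact h5.inv_right.mul_right h6
    apply hag
    obtain ⟨k, hk⟩ := hodd
    have h8 : Commute a ((g ^ 2) ^ (k + 1)) := h7.pow_right _
    rw [← pow_mul, show 2 * (k + 1) = Nat.card G + 1 by omega, pow_succ, pow_card_eq_one',
      one_mul] at h8
    exact h8

end construction

/-- A finite group in which every abelian subgroup is centralized by its normalizer is abelian. -/
theorem comm_of_forall (n : ℕ) : ∀ (G : Type u) [Group G] [Finite G], Nat.card G = n →
    (∀ A : Subgroup G, (∀ a ∈ A, ∀ b ∈ A, a * b = b * a) →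
      ∀ g ∈ normalizer (A : Set G), ∀ a ∈ A, a * g = g * a) →
    ∀ a b : G, a * b = b * a := by
  induction n using Nat.strong_induction_on with
  | _ n ih =>
  intro G _ _ hn hA
  -- all proper subgroups are abelian
  have hprop : ∀ K : Subgroup G, K ≠ ⊤ → ∀ a ∈ K, ∀ b ∈ K, a * b = b * a := by
    intro K hK a ha b hb
    have hlt : Nat.card K < n := by
      rw [← hn]
      have h1 := K.card_le_card_group
      rcases h1.lt_or_eq with h | h
      · exact h
      · exact absurd (K.eq_top_of_card_eq h) hK
    have := ih _ hlt K rfl (by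
      intro A hAab g hg a ha
      have hab' : ∀ a ∈ A.map K.subtype, ∀ b ∈ A.map K.subtype, a * b = b * a := by
        rintro _ ⟨a, ha, rfl⟩ _ ⟨b, hb, rfl⟩
        simp only [← map_mul]
        rw [hAab a ha b hb]
      have hg' : (g : G) ∈ normalizer ((A.map K.subtype : Subgroup G) : Set G) := by
        rw [mem_normalizer_iff] at hg ⊢
        intro h
        constructor
        · rintro ⟨x, hx, rfl⟩
          exact ⟨g * x * g⁻¹, (hg x).1 hx, by simp⟩
        · rintro ⟨x, hx, hxe⟩
          refine ⟨g⁻¹ * x * g, ?_, ?_⟩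
          · have := (hg (g⁻¹ * x * g)).2
            apply this
            have h2 : g * (g⁻¹ * x * g) * g⁻¹ = x := by group
            rw [h2]; exact hx
          · have h3 : (x : G) = g * h * (g : G)⁻¹ := hxe
            simp only [map_mul, Subgroup.coe_subtype, InvMemClass.coe_inv, h3]
            group
      have := hA _ hab' g hg' a ⟨a, ha, rfl⟩
      exact Subtype.ext this) ⟨a, ha⟩ ⟨b, hb⟩
    exact congrArg Subtype.val this
  -- normalizers of Sylow subgroups centralize
  have hSyl : ∀ (p : ℕ) [Fact p.Prime] (P : Sylow p G),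
      normalizer ((P : Subgroup G) : Set G) ≤ centralizer ((P : Subgroup G) : Set G) := by
    intro p _ P
    have key : (∀ a ∈ (P : Subgroup G), ∀ b ∈ (P : Subgroup G), a * b = b * a) →
        normalizer ((P : Subgroup G) : Set G) ≤ centralizer ((P : Subgroup G) : Set G) := by
      intro hPab g hg
      rw [mem_centralizer_iff]
      intro a ha
      exact hA P hPab g hg a ha
    apply key
    by_cases hP : (P : Subgroup G) = ⊤
    · intro a _ b _
      -- `G` is a `p`-group
      have hpG : IsPGroup p G := by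
        have := P.isPGroup'
        rw [hP] at this
        exact this.of_equiv Subgroup.topEquiv
      have hnil : Group.IsNilpotent G := hpG.isNilpotent
      rcases subsingleton_or_nontrivial G with hs | hnt
      · exact Subsingleton.elim _ _
      obtain ⟨M, hM, -⟩ := (eq_top_or_exists_le_coatom (⊥ : Subgroup G)).resolve_left bot_ne_top
      have hMn : M.Normal :=
        Subgroup.NormalizerCondition.normal_of_coatom M Group.normalizerCondition_of_isNilpotent hM
      have hMc : ∀ g : G, ∀ a ∈ M, a * g = g * a := by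
        intro g a ha
        apply hA M (hprop M hM.1) g _ a ha
        rw [Subgroup.normalizer_eq_top]
        exact Subgroup.mem_top g
      by_cases haM : a ∈ M
      · exact hMc b a haM
      · have hle : M < centralizer {a} := by
          refine lt_of_le_of_ne ?_ ?_
          · intro m hm
            rw [mem_centralizer_iff]
            rintro x rfl
            exact (hMc _ m hm).symm
          · rintro h
            apply haM
            rw [h, mem_centralizer_iff]
            rintro x rfl
            rfl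
        have htop := hM.2 _ hle
        have : b ∈ centralizer {a} := by rw [htop]; exact Subgroup.mem_top b
        rw [mem_centralizer_iff] at this
        exact this a rfl
    · exact hprop _ hP
  intro x y
  by_contra hxy
  set c := x * y * x⁻¹ * y⁻¹ with hc
  have hc1 : c ≠ 1 := by
    intro h
    apply hxy
    rw [hc] at h
    have : x * y = (x * y * x⁻¹ * y⁻¹) * (y * x) := by group
    rw [this, h, one_mul]
  have hord : orderOf c ≠ 1 := fun h => hc1 (orderOf_eq_one_iff.1 h)
  obtain ⟨p, hp, hpd⟩ := Nat.exists_prime_and_dvd hord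
  have : Fact p.Prime := ⟨hp⟩
  obtain ⟨P⟩ := (Sylow.nonempty : Nonempty (Sylow p G))
  have hP := hSyl p P
  have hPcomm : ∀ a b : P, a * b = b * a := by
    intro a b
    apply Subtype.ext
    have := hP (Subgroup.le_normalizer b.2)
    rw [mem_centralizer_iff] at this
    exact this a a.2
  have hcker : c ∈ (MonoidHom.transferSylow P hP).ker := by
    rw [MonoidHom.mem_ker, hc]
    simp only [map_mul, map_inv]
    rw [hPcomm (MonoidHom.transferSylow P hP x) (MonoidHom.transferSylow P hP y)]
    group
  have h1 : orderOf c ∣ Nat.card (MonoidHom.transferSylow P hP).ker := by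
    have := orderOf_dvd_natCard (⟨c, hcker⟩ : (MonoidHom.transferSylow P hP).ker)
    rwa [← Subgroup.orderOf_coe] at this
  exact MonoidHom.not_dvd_card_ker_transferSylow P hP (hpd.trans h1)

/-- **Main theorem.** Every non-abelian finite group `G` of odd order `n` is
`(n - 1)`-admissible: there is a permutation `θ` of `G` such that the chain `{(x, θ x) : x ∈ G}`
of the Cayley table of `G` has exactly `n - 1` distinct symbols `x * θ x`. -/
theorem result (G : Type u) [Group G] [Finite G] (hodd : Odd (Nat.card G))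
    (hna : ¬ ∀ a b : G, a * b = b * a) :
    ∃ θ : Equiv.Perm G, (Set.range fun x : G => x * θ x).ncard = Nat.card G - 1 := by
  have h : ¬ ∀ A : Subgroup G, (∀ a ∈ A, ∀ b ∈ A, a * b = b * a) →
      ∀ g ∈ normalizer (A : Set G), ∀ a ∈ A, a * g = g * a := fun h =>
    hna (comm_of_forall (Nat.card G) G rfl h)
  push Not at h
  obtain ⟨A, hA, g, hg, a, ha, hag⟩ := h
  exact main_construction hodd A hA g hg (fun hgA => hag (hA a ha g hgA)) a ha hag

end Pool.Agent.Results.MP_053bca_co.NonabelianOdd
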